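import Pool.Agent.Helper717.Hull2

/-!
# Enclosing plane convex bodies in right triangles

`MP_49a3fa_co`, Q1: is every planar convex body of area `1` contained in a right triangle of
area `2`?  The answer is NO.  Let `K₀` be the pentagon with vertices
`(-9, 0), (9, 0), (10, 15), (0, 16), (-10, 15)`, of area `295`.  Every right triangle containing
`K₀` has area at least `594`, so that for the copy of `K₀` of area `1` the smallest right
triangle has area at least `594 / 295 = 2.0135...`.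

Proof: let `u` be the direction of the first leg and `u'` the direction of the second leg (`u`
rotated by a right angle).  If `T` is a right triangle with legs along `u`, `u'` containing `K₀`,
then for all `a, b, p ∈ K₀` such that `⟪p - a, u⟫ ≥ 0` and `⟪p - b, u'⟫ ≥ 0` one has
`⟪p - a, u⟫ ⟪p - b, u'⟫ ≤ |T| |u|² / 2`.  Seventeen triples `(a, b, p)` are enough to get
`⟪p - a, u⟫ ⟪p - b, u'⟫ ≥ 297 |u|²` for every direction `u`.
-/

set_option autoImplicit false

namespace Pool.Agent.Results.MP_49a3fa_co.PentagonRightTriangle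

open MeasureTheory Set Pool.Agent.Helper717.Hull1 Pool.Agent.Helper717.Hull2
open scoped Pointwise

/-- The Euclidean plane. -/
abbrev Plane := EuclideanSpace ℝ (Fin 2)

/-- the point with coordinates `x`, `y` -/
noncomputable def pt (x y : ℝ) : Plane := !₂[x, y]

@[simp] lemma pt_zero (x y : ℝ) : pt x y 0 = x := by simp [pt]
@[simp] lemma pt_one (x y : ℝ) : pt x y 1 = y := by simp [pt]

/-- the pentagon, of area `295` -/
noncomputable def K0 : Set Plane :=
  convexHull ℝ {pt (-9) 0, pt 9 0, pt 10 15, pt 0 16, pt (-10) 15}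

lemma m1 : pt (-9) 0 ∈ K0 := subset_convexHull _ _ (by simp)
lemma m2 : pt 9 0 ∈ K0 := subset_convexHull _ _ (by simp)
lemma m3 : pt 10 15 ∈ K0 := subset_convexHull _ _ (by simp)
lemma m4 : pt 0 16 ∈ K0 := subset_convexHull _ _ (by simp)
lemma m5 : pt (-10) 15 ∈ K0 := subset_convexHull _ _ (by simp)

lemma mem_seg {p q : Plane} (hp : p ∈ K0) (hq : q ∈ K0) {t : ℝ} (h0 : 0 ≤ t) (h1 : t ≤ 1) :
    (1 - t) • p + t • q ∈ K0 :=
  convex_convexHull ℝ _ hp hq (by linarith) h0 (by ring)

/-- there are three points of the pentagon which certify the direction `(x, y)` -/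
def Good (x y : ℝ) : Prop := ∃ a ∈ K0, ∃ b ∈ K0, ∃ p ∈ K0,
  0 ≤ (p 0 - a 0) * x + (p 1 - a 1) * y ∧ 0 ≤ (p 1 - b 1) * x - (p 0 - b 0) * y ∧
    297 * (x ^ 2 + y ^ 2) ≤
      ((p 0 - a 0) * x + (p 1 - a 1) * y) * ((p 1 - b 1) * x - (p 0 - b 0) * y)

lemma e1 : pt (5/3) (95/6) ∈ K0 := by
  have h := mem_seg m3 m4 (t := (5/6)) (by norm_num) (by norm_num)
  have e : (1 - (5/6) : ℝ) • pt 10 15 + ((5/6) : ℝ) • pt 0 16 = pt (5/3) (95/6) := by
    ext i; fin_cases i <;> simp [pt] <;> norm_num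
  rw [e] at h; exact h

lemma e2 : pt (-35/6) (185/12) ∈ K0 := by
  have h := mem_seg m4 m5 (t := (7/12)) (by norm_num) (by norm_num)
  have e : (1 - (7/12) : ℝ) • pt 0 16 + ((7/12) : ℝ) • pt (-10) 15 = pt (-35/6) (185/12) := by
    ext i; fin_cases i <;> simp [pt] <;> norm_num
  rw [e] at h; exact h

lemma e3 : pt (-59/6) (25/2) ∈ K0 := by
  have h := mem_seg m5 m1 (t := (1/6)) (by norm_num) (by norm_num)
  have e : (1 - (1/6) : ℝ) • pt (-10) 15 + ((1/6) : ℝ) • pt (-9) 0 = pt (-59/6) (25/2) := by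
    ext i; fin_cases i <;> simp [pt] <;> norm_num
  rw [e] at h; exact h

lemma e4 : pt (-15/2) 0 ∈ K0 := by
  have h := mem_seg m1 m2 (t := (1/12)) (by norm_num) (by norm_num)
  have e : (1 - (1/12) : ℝ) • pt (-9) 0 + ((1/12) : ℝ) • pt 9 0 = pt (-15/2) 0 := by
    ext i; fin_cases i <;> simp [pt] <;> norm_num
  rw [e] at h; exact h

lemma e5 : pt 3 0 ∈ K0 := by
  have h := mem_seg m1 m2 (t := (2/3)) (by norm_num) (by norm_num)
  have e : (1 - (2/3) : ℝ) • pt (-9) 0 + ((2/3) : ℝ) • pt 9 0 = pt 3 0 := by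
    ext i; fin_cases i <;> simp [pt] <;> norm_num
  rw [e] at h; exact h

lemma e6 : pt (19/2) (15/2) ∈ K0 := by
  have h := mem_seg m2 m3 (t := (1/2)) (by norm_num) (by norm_num)
  have e : (1 - (1/2) : ℝ) • pt 9 0 + ((1/2) : ℝ) • pt 10 15 = pt (19/2) (15/2) := by
    ext i; fin_cases i <;> simp [pt] <;> norm_num
  rw [e] at h; exact h

lemma arc0 (x y : ℝ) (h1 : 0 ≤ 1 * y - 0 * x) (h2 : 0 ≤ x * 1 - y * 14) : Good x y := by
  refine ⟨pt (-10) 15, m5, pt 9 0, m2, pt 10 15, m3, ?_, ?_, ?_⟩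
  · simp only [pt_zero, pt_one]; linarith
  · simp only [pt_zero, pt_one]; linarith
  · simp only [pt_zero, pt_one]
    nlinarith [mul_nonneg h1 h1, mul_nonneg h1 h2, mul_nonneg h2 h2]

lemma arc1 (x y : ℝ) (h1 : 0 ≤ 14 * y - 1 * x) (h2 : 0 ≤ x * 22 - y * 37) : Good x y := by
  refine ⟨pt (-9) 0, m1, pt 9 0, m2, pt 10 15, m3, ?_, ?_, ?_⟩
  · simp only [pt_zero, pt_one]; linarith
  · simp only [pt_zero, pt_one]; linarith
  · simp only [pt_zero, pt_one]
    nlinarith [mul_nonneg h1 h1, mul_nonneg h1 h2, mul_nonneg h2 h2]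

lemma arc2 (x y : ℝ) (h1 : 0 ≤ 37 * y - 22 * x) (h2 : 0 ≤ x * 5 - y * 4) : Good x y := by
  refine ⟨pt (-9) 0, m1, pt 9 0, m2, pt (5/3) (95/6), e1, ?_, ?_, ?_⟩
  · simp only [pt_zero, pt_one]; linarith
  · simp only [pt_zero, pt_one]; linarith
  · simp only [pt_zero, pt_one]
    nlinarith [mul_nonneg h1 h1, mul_nonneg h1 h2, mul_nonneg h2 h2]

lemma arc3 (x y : ℝ) (h1 : 0 ≤ 4 * y - 5 * x) (h2 : 0 ≤ x * 38 - y * 13) : Good x y := by
  refine ⟨pt (-9) 0, m1, pt 9 0, m2, pt (-35/6) (185/12), e2, ?_, ?_, ?_⟩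
  · simp only [pt_zero, pt_one]; linarith
  · simp only [pt_zero, pt_one]; linarith
  · simp only [pt_zero, pt_one]
    nlinarith [mul_nonneg h1 h1, mul_nonneg h1 h2, mul_nonneg h2 h2]

lemma arc4 (x y : ℝ) (h1 : 0 ≤ 13 * y - 38 * x) (h2 : 0 ≤ x * 15 - y * 1) : Good x y := by
  refine ⟨pt (-9) 0, m1, pt 9 0, m2, pt (-10) 15, m5, ?_, ?_, ?_⟩
  · simp only [pt_zero, pt_one]; linarith
  · simp only [pt_zero, pt_one]; linarith
  · simp only [pt_zero, pt_one]
    nlinarith [mul_nonneg h1 h1, mul_nonneg h1 h2, mul_nonneg h2 h2]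

lemma arc5 (x y : ℝ) (h1 : 0 ≤ 1 * y - 15 * x) (h2 : 0 ≤ x * 36 - y * (-5)) : Good x y := by
  refine ⟨pt (-9) 0, m1, pt 10 15, m3, pt (-10) 15, m5, ?_, ?_, ?_⟩
  · simp only [pt_zero, pt_one]; linarith
  · simp only [pt_zero, pt_one]; linarith
  · simp only [pt_zero, pt_one]
    nlinarith [mul_nonneg h1 h1, mul_nonneg h1 h2, mul_nonneg h2 h2]

lemma arc6 (x y : ℝ) (h1 : 0 ≤ (-5) * y - 36 * x) (h2 : 0 ≤ x * 27 - y * (-40)) : Good x y := by
  refine ⟨pt 9 0, m2, pt 10 15, m3, pt (-59/6) (25/2), e3, ?_, ?_, ?_⟩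
  · simp only [pt_zero, pt_one]; linarith
  · simp only [pt_zero, pt_one]; linarith
  · simp only [pt_zero, pt_one]
    nlinarith [mul_nonneg h1 h1, mul_nonneg h1 h2, mul_nonneg h2 h2]

lemma arc7 (x y : ℝ) (h1 : 0 ≤ (-40) * y - 27 * x) (h2 : 0 ≤ x * 3 - y * (-35)) : Good x y := by
  refine ⟨pt 9 0, m2, pt 10 15, m3, pt (-9) 0, m1, ?_, ?_, ?_⟩
  · simp only [pt_zero, pt_one]; linarith
  · simp only [pt_zero, pt_one]; linarith
  · simp only [pt_zero, pt_one]
    nlinarith [mul_nonneg h1 h1, mul_nonneg h1 h2, mul_nonneg h2 h2]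

lemma arc8 (x y : ℝ) (h1 : 0 ≤ (-35) * y - 3 * x) (h2 : 0 ≤ x * 2 - y * (-31)) : Good x y := by
  refine ⟨pt 9 0, m2, pt 0 16, m4, pt (-9) 0, m1, ?_, ?_, ?_⟩
  · simp only [pt_zero, pt_one]; linarith
  · simp only [pt_zero, pt_one]; linarith
  · simp only [pt_zero, pt_one]
    nlinarith [mul_nonneg h1 h1, mul_nonneg h1 h2, mul_nonneg h2 h2]

lemma arc9 (x y : ℝ) (h1 : 0 ≤ (-31) * y - 2 * x) (h2 : 0 ≤ x * (-8) - y * (-35)) : Good x y := by
  refine ⟨pt 10 15, m3, pt 0 16, m4, pt (-9) 0, m1, ?_, ?_, ?_⟩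
  · simp only [pt_zero, pt_one]; linarith
  · simp only [pt_zero, pt_one]; linarith
  · simp only [pt_zero, pt_one]
    nlinarith [mul_nonneg h1 h1, mul_nonneg h1 h2, mul_nonneg h2 h2]

lemma arc10 (x y : ℝ) (h1 : 0 ≤ (-35) * y - (-8) * x) (h2 : 0 ≤ x * (-23) - y * (-26)) : Good x y := by
  refine ⟨pt 10 15, m3, pt (-10) 15, m5, pt (-15/2) 0, e4, ?_, ?_, ?_⟩
  · simp only [pt_zero, pt_one]; linarith
  · simp only [pt_zero, pt_one]; linarith
  · simp only [pt_zero, pt_one]
    nlinarith [mul_nonneg h1 h1, mul_nonneg h1 h2, mul_nonneg h2 h2]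

lemma arc11 (x y : ℝ) (h1 : 0 ≤ (-26) * y - (-23) * x) (h2 : 0 ≤ x * (-34) - y * (-15)) : Good x y := by
  refine ⟨pt 10 15, m3, pt (-10) 15, m5, pt 3 0, e5, ?_, ?_, ?_⟩
  · simp only [pt_zero, pt_one]; linarith
  · simp only [pt_zero, pt_one]; linarith
  · simp only [pt_zero, pt_one]
    nlinarith [mul_nonneg h1 h1, mul_nonneg h1 h2, mul_nonneg h2 h2]

lemma arc12 (x y : ℝ) (h1 : 0 ≤ (-15) * y - (-34) * x) (h2 : 0 ≤ x * (-19) - y * (-1)) : Good x y := by
  refine ⟨pt 10 15, m3, pt (-10) 15, m5, pt 9 0, m2, ?_, ?_, ?_⟩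
  · simp only [pt_zero, pt_one]; linarith
  · simp only [pt_zero, pt_one]; linarith
  · simp only [pt_zero, pt_one]
    nlinarith [mul_nonneg h1 h1, mul_nonneg h1 h2, mul_nonneg h2 h2]

lemma arc13 (x y : ℝ) (h1 : 0 ≤ (-1) * y - (-19) * x) (h2 : 0 ≤ x * (-29) - y * 2) : Good x y := by
  refine ⟨pt 0 16, m4, pt (-10) 15, m5, pt 9 0, m2, ?_, ?_, ?_⟩
  · simp only [pt_zero, pt_one]; linarith
  · simp only [pt_zero, pt_one]; linarith
  · simp only [pt_zero, pt_one]
    nlinarith [mul_nonneg h1 h1, mul_nonneg h1 h2, mul_nonneg h2 h2]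

lemma arc14 (x y : ℝ) (h1 : 0 ≤ 2 * y - (-29) * x) (h2 : 0 ≤ x * (-27) - y * 13) : Good x y := by
  refine ⟨pt 0 16, m4, pt (-9) 0, m1, pt 9 0, m2, ?_, ?_, ?_⟩
  · simp only [pt_zero, pt_one]; linarith
  · simp only [pt_zero, pt_one]; linarith
  · simp only [pt_zero, pt_one]
    nlinarith [mul_nonneg h1 h1, mul_nonneg h1 h2, mul_nonneg h2 h2]

lemma arc15 (x y : ℝ) (h1 : 0 ≤ 13 * y - (-27) * x) (h2 : 0 ≤ x * (-13) - y * 30) : Good x y := by
  refine ⟨pt (-10) 15, m5, pt (-9) 0, m1, pt (19/2) (15/2), e6, ?_, ?_, ?_⟩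
  · simp only [pt_zero, pt_one]; linarith
  · simp only [pt_zero, pt_one]; linarith
  · simp only [pt_zero, pt_one]
    nlinarith [mul_nonneg h1 h1, mul_nonneg h1 h2, mul_nonneg h2 h2]

lemma arc16 (x y : ℝ) (h1 : 0 ≤ 30 * y - (-13) * x) (h2 : 0 ≤ x * 0 - y * 1) : Good x y := by
  refine ⟨pt (-10) 15, m5, pt (-9) 0, m1, pt 10 15, m3, ?_, ?_, ?_⟩
  · simp only [pt_zero, pt_one]; linarith
  · simp only [pt_zero, pt_one]; linarith
  · simp only [pt_zero, pt_one]
    nlinarith [mul_nonneg h1 h1, mul_nonneg h1 h2, mul_nonneg h2 h2]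

lemma good (x y : ℝ) : Good x y := by
  rcases le_total 0 y with hy | hy
  · rcases le_total 0 (x * 1 - y * 14) with h0 | h0
    · exact arc0 x y (by linarith) (by linarith)
    rcases le_total 0 (x * 22 - y * 37) with h1 | h1
    · exact arc1 x y (by linarith) (by linarith)
    rcases le_total 0 (x * 5 - y * 4) with h2 | h2
    · exact arc2 x y (by linarith) (by linarith)
    rcases le_total 0 (x * 38 - y * 13) with h3 | h3
    · exact arc3 x y (by linarith) (by linarith)
    rcases le_total 0 (x * 15 - y * 1) with h4 | h4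
    · exact arc4 x y (by linarith) (by linarith)
    rcases le_total 0 (x * 36 - y * (-5)) with h5 | h5
    · exact arc5 x y (by linarith) (by linarith)
    rcases le_total 0 (x * 27 - y * (-40)) with h6 | h6
    · exact arc6 x y (by linarith) (by linarith)
    rcases le_total 0 (x * 3 - y * (-35)) with h7 | h7
    · exact arc7 x y (by linarith) (by linarith)
    rcases le_total 0 (x * 2 - y * (-31)) with h8 | h8
    · exact arc8 x y (by linarith) (by linarith)
    exact arc9 x y (by linarith) (by linarith)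
  · rcases le_total 0 (x * (-8) - y * (-35)) with h9 | h9
    · exact arc9 x y (by linarith) (by linarith)
    rcases le_total 0 (x * (-23) - y * (-26)) with h10 | h10
    · exact arc10 x y (by linarith) (by linarith)
    rcases le_total 0 (x * (-34) - y * (-15)) with h11 | h11
    · exact arc11 x y (by linarith) (by linarith)
    rcases le_total 0 (x * (-19) - y * (-1)) with h12 | h12
    · exact arc12 x y (by linarith) (by linarith)
    rcases le_total 0 (x * (-29) - y * 2) with h13 | h13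
    · exact arc13 x y (by linarith) (by linarith)
    rcases le_total 0 (x * (-27) - y * 13) with h14 | h14
    · exact arc14 x y (by linarith) (by linarith)
    rcases le_total 0 (x * (-13) - y * 30) with h15 | h15
    · exact arc15 x y (by linarith) (by linarith)
    exact arc16 x y (by linarith) (by linarith)

/-- The key bound, for a positively oriented right triangle. -/
lemma area_pos (A B C : Plane) (hperp : (A 0 - C 0) * (B 0 - C 0) + (A 1 - C 1) * (B 1 - C 1) = 0)
    (hor : 0 < orient C A B) (hK : K0 ⊆ convexHull ℝ {C, A, B}) : 1188 ≤ orient C A B := by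
  set x := A 0 - C 0 with hx
  set y := A 1 - C 1 with hy
  have hT : orient C A B = x * (B 1 - C 1) - y * (B 0 - C 0) := by
    simp only [orient]; ring
  have hN : 0 < x ^ 2 + y ^ 2 := by
    by_contra hcon
    have h1 : x ^ 2 + y ^ 2 = 0 := le_antisymm (not_lt.1 hcon) (by positivity)
    have h2 : x = 0 := by nlinarith [sq_nonneg x, sq_nonneg y]
    have h3 : y = 0 := by nlinarith [sq_nonneg x, sq_nonneg y]
    rw [hT, h2, h3] at hor
    simp at hor
  set N := x ^ 2 + y ^ 2 with hNdef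
  set W := orient C A B with hW
  set s := W / N with hs
  have hsW : s * N = W := by rw [hs]; field_simp
  have hspos : 0 < s := div_pos hor hN
  -- the second leg is the first one rotated by a right angle and scaled by `s`
  have e0 : B 0 - C 0 = - s * y := by
    have h1 : N * (B 0 - C 0) = - W * y := by
      rw [hT, hNdef]; linear_combination x * hperp
    have h2 : N * (B 0 - C 0) = N * (- s * y) := by rw [h1, ← hsW]; ring
    exact mul_left_cancel₀ hN.ne' h2
  have e1 : B 1 - C 1 = s * x := by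
    have h1 : N * (B 1 - C 1) = W * x := by
      rw [hT, hNdef]; linear_combination y * hperp
    have h2 : N * (B 1 - C 1) = N * (s * x) := by rw [h1, ← hsW]; ring
    exact mul_left_cancel₀ hN.ne' h2
  have key : ∀ q ∈ K0, 0 ≤ (q 0 - C 0) * x + (q 1 - C 1) * y ∧
      0 ≤ (q 1 - C 1) * x - (q 0 - C 0) * y ∧
      s * ((q 0 - C 0) * x + (q 1 - C 1) * y) + ((q 1 - C 1) * x - (q 0 - C 0) * y) ≤ s * N := by
    intro q hq
    obtain ⟨h1, h2, h3⟩ := (tri_iff C A B q hor).1 (hK hq)
    have i1 : orient C A q = (q 1 - C 1) * x - (q 0 - C 0) * y := by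
      simp only [orient]; ring
    have i3 : orient B C q = s * ((q 0 - C 0) * x + (q 1 - C 1) * y) := by
      have : orient B C q = (q 0 - C 0) * (B 1 - C 1) - (q 1 - C 1) * (B 0 - C 0) := by
        simp only [orient]; ring
      rw [this, e0, e1]; ring
    have isum := or_sum C A B q
    refine ⟨?_, by rw [← i1]; exact h1, ?_⟩
    · rw [i3] at h3
      exact nonneg_of_mul_nonneg_right h3 hspos
    · rw [← i3, ← i1, hsW, hW]
      linarith
  obtain ⟨a, ha, b, hb, p, hp, g1, g2, g3⟩ := good x y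
  obtain ⟨ka, -, -⟩ := key a ha
  obtain ⟨-, kb, -⟩ := key b hb
  obtain ⟨k1, k2, k3⟩ := key p hp
  set X := (p 0 - C 0) * x + (p 1 - C 1) * y with hX
  set Y := (p 1 - C 1) * x - (p 0 - C 0) * y with hY
  set X' := (p 0 - a 0) * x + (p 1 - a 1) * y with hX'
  set Y' := (p 1 - b 1) * x - (p 0 - b 0) * y with hY'
  have hXX : X' ≤ X := by rw [hX, hX']; linarith
  have hYY : Y' ≤ Y := by rw [hY, hY']; linarith
  have h5 : X' * Y' ≤ X * Y := mul_le_mul hXX hYY g2 (g1.trans hXX)
  have h6 : 297 * N ≤ X * Y := g3.trans h5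
  -- AM-GM
  have h7 : 4 * (s * X * Y) ≤ (s * N) ^ 2 := by
    have h8 : (s * X + Y) ^ 2 ≤ (s * N) ^ 2 := by
      apply pow_le_pow_left₀ (by positivity) k3
    nlinarith [sq_nonneg (s * X - Y)]
  have h9 : 4 * s * (297 * N) ≤ (s * N) ^ 2 := by
    have : 4 * s * (297 * N) ≤ 4 * s * (X * Y) := mul_le_mul_of_nonneg_left h6 (by positivity)
    nlinarith
  rw [← hsW]
  have h10 : (s * N) * 1188 ≤ (s * N) * (s * N) := by nlinarith
  exact le_of_mul_le_mul_left h10 (by positivity)

lemma inner_eq (u v : Plane) : inner ℝ u v = u 0 * v 0 + u 1 * v 1 := by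
  simp [PiLp.inner_apply, Fin.sum_univ_two]
  ring

/-- `A B C` is a non-degenerate right triangle with the right angle at `C`. -/
def IsRightTriangle (A B C : Plane) : Prop :=
  A ≠ C ∧ B ≠ C ∧ EuclideanGeometry.angle A C B = Real.pi / 2

lemma perp_of_right {A B C : Plane} (h : IsRightTriangle A B C) :
    (A 0 - C 0) * (B 0 - C 0) + (A 1 - C 1) * (B 1 - C 1) = 0 := by
  have h3 := h.2.2
  rw [EuclideanGeometry.angle, ← InnerProductGeometry.inner_eq_zero_iff_angle_eq_pi_div_two,
    inner_eq] at h3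
  simpa using h3

lemma orient_ne_of_right {A B C : Plane} (h : IsRightTriangle A B C) : orient C A B ≠ 0 := by
  intro h0
  have hp := perp_of_right h
  obtain ⟨hA, hB, -⟩ := h
  simp only [orient] at h0
  have hmul : ((A 0 - C 0) ^ 2 + (A 1 - C 1) ^ 2) * ((B 0 - C 0) ^ 2 + (B 1 - C 1) ^ 2) = 0 := by
    have : ((A 0 - C 0) ^ 2 + (A 1 - C 1) ^ 2) * ((B 0 - C 0) ^ 2 + (B 1 - C 1) ^ 2) =
        ((A 0 - C 0) * (B 0 - C 0) + (A 1 - C 1) * (B 1 - C 1)) ^ 2 +
        ((A 0 - C 0) * (B 1 - C 1) - (A 1 - C 1) * (B 0 - C 0)) ^ 2 := by ring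
    rw [this, hp, h0]; ring
  rcases mul_eq_zero.1 hmul with h1 | h1
  · apply hA
    have h2 : A 0 - C 0 = 0 := by nlinarith [sq_nonneg (A 0 - C 0), sq_nonneg (A 1 - C 1)]
    have h3 : A 1 - C 1 = 0 := by nlinarith [sq_nonneg (A 0 - C 0), sq_nonneg (A 1 - C 1)]
    ext i; fin_cases i
    · simpa using sub_eq_zero.1 h2
    · simpa using sub_eq_zero.1 h3
  · apply hB
    have h2 : B 0 - C 0 = 0 := by nlinarith [sq_nonneg (B 0 - C 0), sq_nonneg (B 1 - C 1)]
    have h3 : B 1 - C 1 = 0 := by nlinarith [sq_nonneg (B 0 - C 0), sq_nonneg (B 1 - C 1)]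
    ext i; fin_cases i
    · simpa using sub_eq_zero.1 h2
    · simpa using sub_eq_zero.1 h3

lemma area_ge (A B C : Plane) (h : IsRightTriangle A B C) (hK : K0 ⊆ convexHull ℝ {A, B, C}) :
    1188 ≤ |orient C A B| := by
  have hp := perp_of_right h
  rcases lt_or_gt_of_ne (orient_ne_of_right h) with h0 | h0
  · have h1 : orient C B A = - orient C A B := or_swap' C A B
    have e : ({C, B, A} : Set Plane) = {A, B, C} := by
      ext q; simp only [mem_insert_iff, mem_singleton_iff]; tauto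
    have h2 := area_pos B A C (by rw [← hp]; ring) (by rw [h1]; linarith) (by rw [e]; exact hK)
    rw [abs_of_neg h0, ← h1]; exact h2
  · have e : ({C, A, B} : Set Plane) = {A, B, C} := by
      ext q; simp only [mem_insert_iff, mem_singleton_iff]; tauto
    have h2 := area_pos A B C hp h0 (by rw [e]; exact hK)
    rw [abs_of_pos h0]; exact h2

/-- the three triangles that make up the pentagon -/
lemma K0_subset : K0 ⊆ convexHull ℝ {pt (-9) 0, pt 9 0, pt 10 15} ∪
    (convexHull ℝ {pt (-9) 0, pt 10 15, pt (-10) 15} ∪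
      convexHull ℝ {pt (-10) 15, pt 10 15, pt 0 16}) := by
  have o1 : 0 < orient (pt (-9) 0) (pt 9 0) (pt 10 15) := by
    simp only [orient, pt_zero, pt_one]; norm_num
  have o2 : 0 < orient (pt (-9) 0) (pt 10 15) (pt (-10) 15) := by
    simp only [orient, pt_zero, pt_one]; norm_num
  have o3 : 0 < orient (pt (-10) 15) (pt 10 15) (pt 0 16) := by
    simp only [orient, pt_zero, pt_one]; norm_num
  have side : ∀ u v : Plane, (∀ w ∈ ({pt (-9) 0, pt 9 0, pt 10 15, pt 0 16, pt (-10) 15} :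
      Set Plane), 0 ≤ orient u v w) → K0 ⊆ {q | 0 ≤ orient u v q} := fun u v h =>
    convexHull_min h (half_convex u v)
  have s1 := side (pt (-9) 0) (pt 9 0) (by
    simp only [mem_insert_iff, mem_singleton_iff]
    rintro w (rfl | rfl | rfl | rfl | rfl) <;> simp [orient] <;> norm_num)
  have s2 := side (pt 9 0) (pt 10 15) (by
    simp only [mem_insert_iff, mem_singleton_iff]
    rintro w (rfl | rfl | rfl | rfl | rfl) <;> simp [orient] <;> norm_num)
  have s3 := side (pt 10 15) (pt 0 16) (by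
    simp only [mem_insert_iff, mem_singleton_iff]
    rintro w (rfl | rfl | rfl | rfl | rfl) <;> simp [orient] <;> norm_num)
  have s4 := side (pt 0 16) (pt (-10) 15) (by
    simp only [mem_insert_iff, mem_singleton_iff]
    rintro w (rfl | rfl | rfl | rfl | rfl) <;> simp [orient] <;> norm_num)
  have s5 := side (pt (-10) 15) (pt (-9) 0) (by
    simp only [mem_insert_iff, mem_singleton_iff]
    rintro w (rfl | rfl | rfl | rfl | rfl) <;> simp [orient] <;> norm_num)
  intro q hq
  have t1 := s1 hq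
  have t2 := s2 hq
  have t3 := s3 hq
  have t4 := s4 hq
  have t5 := s5 hq
  rw [mem_union, mem_union, tri_iff _ _ _ _ o1, tri_iff _ _ _ _ o2, tri_iff _ _ _ _ o3]
  simp only [mem_ofPred_eq] at t1 t2 t3 t4 t5
  rcases le_total 0 (orient (pt (-9) 0) (pt 10 15) q) with d1 | d1
  · right
    rcases le_total 0 (orient (pt (-10) 15) (pt 10 15) q) with d2 | d2
    · right; exact ⟨d2, t3, t4⟩
    · left
      refine ⟨d1, ?_, t5⟩
      simp only [orient, pt_zero, pt_one] at *
      linarith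
  · left
    refine ⟨t1, t2, ?_⟩
    simp only [orient, pt_zero, pt_one] at *
    linarith

lemma vol_K0_le : volume K0 ≤ ENNReal.ofReal 295 := by
  have o1 : orient (pt (-9) 0) (pt 9 0) (pt 10 15) = 270 := by
    simp only [orient, pt_zero, pt_one]; norm_num
  have o2 : orient (pt (-9) 0) (pt 10 15) (pt (-10) 15) = 300 := by
    simp only [orient, pt_zero, pt_one]; norm_num
  have o3 : orient (pt (-10) 15) (pt 10 15) (pt 0 16) = 20 := by
    simp only [orient, pt_zero, pt_one]; norm_num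
  calc volume K0 ≤ volume (convexHull ℝ {pt (-9) 0, pt 9 0, pt 10 15} ∪
    (convexHull ℝ {pt (-9) 0, pt 10 15, pt (-10) 15} ∪
      convexHull ℝ {pt (-10) 15, pt 10 15, pt 0 16})) := measure_mono K0_subset
    _ ≤ volume (convexHull ℝ {pt (-9) 0, pt 9 0, pt 10 15}) +
        (volume (convexHull ℝ {pt (-9) 0, pt 10 15, pt (-10) 15}) +
          volume (convexHull ℝ {pt (-10) 15, pt 10 15, pt 0 16})) :=
        (measure_union_le _ _).trans (add_le_add le_rfl (measure_union_le _ _))
    _ = ENNReal.ofReal 295 := by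
        rw [tri_vol_pos _ _ _ (by rw [o1]; norm_num), tri_vol_pos _ _ _ (by rw [o2]; norm_num),
          tri_vol_pos _ _ _ (by rw [o3]; norm_num), o1, o2, o3,
          ← ENNReal.ofReal_add (by norm_num) (by norm_num),
          ← ENNReal.ofReal_add (by norm_num) (by norm_num)]
        norm_num

lemma vol_K0_pos : 0 < volume K0 := by
  have o1 : orient (pt (-9) 0) (pt 9 0) (pt 10 15) = 270 := by
    simp only [orient, pt_zero, pt_one]; norm_num
  have h1 : convexHull ℝ {pt (-9) 0, pt 9 0, pt 10 15} ⊆ K0 := by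
    apply convexHull_min _ (convex_convexHull ℝ _)
    intro w hw
    simp only [mem_insert_iff, mem_singleton_iff] at hw
    rcases hw with rfl | rfl | rfl
    · exact m1
    · exact m2
    · exact m3
  refine lt_of_lt_of_le ?_ (measure_mono h1)
  rw [tri_vol_pos _ _ _ (by rw [o1]; norm_num), o1]
  simp

lemma isCompact_K0 : IsCompact K0 := (Set.toFinite _).isCompact_convexHull (𝕜 := ℝ)

/-- **Not every convex body of area `1` fits in a right triangle of area `2`.**
There is a planar convex body `K` (a pentagon) of area `1` such that every right triangle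
containing `K` has area strictly greater than `2`, in fact at least `594 / 295 > 2.013`. -/
theorem result : ∃ K : Set Plane, Convex ℝ K ∧ IsCompact K ∧ (interior K).Nonempty ∧
    volume K = 1 ∧ ∀ A B C : Plane, IsRightTriangle A B C → K ⊆ convexHull ℝ {A, B, C} →
      2 < volume (convexHull ℝ {A, B, C}) ∧
        ENNReal.ofReal (594 / 295) ≤ volume (convexHull ℝ {A, B, C}) := by
  set V : ℝ := (volume K0).toReal with hV
  have hfin : volume K0 ≠ ⊤ := isCompact_K0.measure_lt_top.ne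
  have hVpos : 0 < V := ENNReal.toReal_pos vol_K0_pos.ne' hfin
  have hVle : V ≤ 295 := by
    have := ENNReal.toReal_mono (by simp) vol_K0_le
    rwa [ENNReal.toReal_ofReal (by norm_num)] at this
  set r : ℝ := Real.sqrt (1 / V) with hr
  have hrpos : 0 < r := Real.sqrt_pos.2 (by positivity)
  have hr2 : r ^ 2 = 1 / V := Real.sq_sqrt (by positivity)
  have hvol : volume (r • K0) = 1 := by
    rw [Measure.addHaar_smul, finrank_euclideanSpace_fin, hr2, abs_of_pos (by positivity)]
    rw [← ENNReal.ofReal_toReal hfin, ← hV, ← ENNReal.ofReal_mul (by positivity)]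
    rw [one_div_mul_cancel hVpos.ne']
    simp
  have hconv : Convex ℝ (r • K0) := (convex_convexHull ℝ _).smul r
  have hcomp : IsCompact (r • K0) := isCompact_K0.smul r
  refine ⟨r • K0, hconv, hcomp, ?_, hvol, ?_⟩
  · by_contra hcon
    rw [not_nonempty_iff_eq_empty] at hcon
    have h1 : volume (frontier (r • K0)) = 0 := hconv.addHaar_frontier volume
    rw [hcomp.isClosed.frontier_eq, hcon, sdiff_empty, hvol] at h1
    exact one_ne_zero h1
  · intro A B C hABC hsub
    -- scale back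
    have hsc : K0 ⊆ convexHull ℝ {r⁻¹ • A, r⁻¹ • B, r⁻¹ • C} := by
      intro q hq
      have h1 : r • q ∈ convexHull ℝ {A, B, C} := hsub (smul_mem_smul_set hq)
      have h2 : r⁻¹ • (r • q) ∈ r⁻¹ • convexHull ℝ {A, B, C} := smul_mem_smul_set h1
      rw [smul_smul, inv_mul_cancel₀ hrpos.ne', one_smul, ← convexHull_smul] at h2
      simpa [smul_set_insert, smul_set_singleton] using h2
    have hright : IsRightTriangle (r⁻¹ • A) (r⁻¹ • B) (r⁻¹ • C) := by
      obtain ⟨hA, hB, h3⟩ := hABC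
      have hri : r⁻¹ ≠ 0 := inv_ne_zero hrpos.ne'
      refine ⟨fun h => hA (smul_right_injective _ hri h),
        fun h => hB (smul_right_injective _ hri h), ?_⟩
      rw [EuclideanGeometry.angle] at h3 ⊢
      simp only [vsub_eq_sub] at h3 ⊢
      rw [← smul_sub, ← smul_sub, InnerProductGeometry.angle_smul_left_of_pos _ _
        (inv_pos.2 hrpos), InnerProductGeometry.angle_smul_right_of_pos _ _ (inv_pos.2 hrpos)]
      exact h3
    have h1 := area_ge _ _ _ hright hsc
    have h2 : orient (r⁻¹ • C) (r⁻¹ • A) (r⁻¹ • B) = (r⁻¹) ^ 2 * orient C A B := by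
      simp only [orient, PiLp.smul_apply, smul_eq_mul]; ring
    rw [h2, abs_mul, abs_of_pos (by positivity)] at h1
    have h3 : 1188 * r ^ 2 ≤ |orient C A B| := by
      have h4 : r ^ 2 * 1188 ≤ r ^ 2 * (r⁻¹ ^ 2 * |orient C A B|) :=
        mul_le_mul_of_nonneg_left h1 (by positivity)
      have h5 : r ^ 2 * (r⁻¹ ^ 2 * |orient C A B|) = |orient C A B| := by
        field_simp
      linarith
    have h6 : 594 / 295 ≤ |orient C A B| / 2 := by
      have h7 : (1 : ℝ) / 295 ≤ r ^ 2 := by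
        rw [hr2]
        exact one_div_le_one_div_of_le hVpos hVle
      linarith
    have e : ({A, B, C} : Set Plane) = {C, A, B} := by
      ext q; simp only [mem_insert_iff, mem_singleton_iff]; tauto
    rw [e, tri_vol C A B (orient_ne_of_right hABC)]
    refine ⟨?_, ENNReal.ofReal_le_ofReal h6⟩
    have h8 : (2 : ENNReal) = ENNReal.ofReal 2 := by simp
    rw [h8]
    exact ENNReal.ofReal_lt_ofReal_iff (by linarith) |>.2 (by linarith)

end Pool.Agent.Results.MP_49a3fa_co.PentagonRightTriangle
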